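import Mathlib
import Pool.Agent.Helper19.P3.Defs
import Pool.Agent.Helper13.P3.Psi

/-!
# PS4, the key count: preparations
-/

set_option autoImplicit false

namespace Pool.Agent.Helper47.P4

open Finset Pool.Agent.Helper58.LT Pool.Agent.Helper19.P3

theorem card_PP (β κ : ℕ) : #(PP β κ) ≤ 2 ^ (β + κ) := by
  unfold PP
  refine (card_filter_le _ _).trans ?_
  rw [Nat.card_Icc]
  have h := Nat.one_le_two_pow (n := β - κ)
  calc 2 ^ (β + κ) + 1 - 2 ^ (β - κ) ≤ 2 ^ (β + κ) + 1 - 1 := Nat.sub_le_sub_left h _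
    _ = 2 ^ (β + κ) := Nat.add_sub_cancel _ _

theorem card_Sm_sub {κ M : ℕ} {X : Finset ℕ} (hX : X ⊆ Sm κ M) : #X ≤ 2 ^ M := by
  refine (card_le_card hX).trans ?_
  unfold Sm
  refine (card_filter_le _ _).trans ?_
  rw [Nat.card_Icc, Nat.add_sub_cancel]

theorem mem_Sm' {κ M x : ℕ} (h : x ∈ Sm κ M) :
    1 ≤ x ∧ x ≤ 2 ^ M ∧ Squarefree x ∧ ∀ p ∈ x.primeFactors, p ≤ 2 ^ κ := by
  unfold Sm at h
  rw [mem_filter, mem_Icc] at h
  exact ⟨h.1.1, h.1.2, h.2.1, h.2.2⟩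

theorem mem_PP' {β κ p : ℕ} (h : p ∈ PP β κ) :
    p.Prime ∧ 2 ^ (β - κ) ≤ p ∧ p ≤ 2 ^ (β + κ) := by
  unfold PP at h
  rw [mem_filter, mem_Icc] at h
  exact ⟨h.2, h.1.1, h.1.2⟩

theorem prod_le_pow {m M : ℕ} {c : Fin m → ℕ} (S : Finset (Fin m)) (h : ∀ j, c j ≤ 2 ^ M) :
    ∏ j ∈ S, c j ≤ 2 ^ (#S * M) := by
  calc ∏ j ∈ S, c j ≤ ∏ _j ∈ S, 2 ^ M := prod_le_prod' fun j _ => h j
    _ = 2 ^ (#S * M) := by rw [prod_const, ← pow_mul, mul_comm]

/-- elements of `Λ × (X × X) × K^m` with all entries dividing `A`, or prime entries `p₀` -/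
theorem fib (Λ X K : Finset ℕ) (m : ℕ) (hΛ : ∀ t ∈ Λ, Squarefree t) (hX : ∀ t ∈ X, Squarefree t)
    {A κ : ℕ} (hA : A ≠ 0) (hω : #A.primeFactors ≤ κ) (p₀ : ℕ) :
    #{z ∈ Λ ×ˢ (X ×ˢ X) ×ˢ tup K m | z.1 ∣ A ∧ z.2.1.1 ∣ A ∧ z.2.1.2 ∣ A ∧
      ∀ k, z.2.2 k = p₀ ∨ z.2.2 k ∈ A.primeFactors} ≤ 2 ^ (3 * κ) * (κ + 1) ^ m := by
  classical
  have h1 : #{z ∈ Λ ×ˢ (X ×ˢ X) ×ˢ tup K m | z.1 ∣ A ∧ z.2.1.1 ∣ A ∧ z.2.1.2 ∣ A ∧
      ∀ k, z.2.2 k = p₀ ∨ z.2.2 k ∈ A.primeFactors} ≤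
      #(A.primeFactors.powerset ×ˢ (A.primeFactors.powerset ×ˢ A.primeFactors.powerset) ×ˢ
        tup (insert p₀ A.primeFactors) m) := by
    refine card_le_card_of_injOn (fun z => (z.1.primeFactors,
      (z.2.1.1.primeFactors, z.2.1.2.primeFactors), z.2.2)) ?_ ?_
    · intro z hz
      rw [mem_coe, mem_filter] at hz
      obtain ⟨-, h2, h3, h4, h5⟩ := hz
      rw [mem_coe, mem_product, mem_product, mem_product, mem_powerset, mem_powerset,
        mem_powerset, mem_tup]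
      exact ⟨Nat.primeFactors_mono h2 hA, ⟨Nat.primeFactors_mono h3 hA,
        Nat.primeFactors_mono h4 hA⟩, fun k => mem_insert.2 (h5 k)⟩
    · intro a ha b hb hab
      rw [mem_coe, mem_filter] at ha hb
      obtain ⟨a1, a2⟩ := mem_product.1 ha.1
      obtain ⟨a2, -⟩ := mem_product.1 a2
      obtain ⟨a2, a3⟩ := mem_product.1 a2
      obtain ⟨b1, b2⟩ := mem_product.1 hb.1
      obtain ⟨b2, -⟩ := mem_product.1 b2
      obtain ⟨b2, b3⟩ := mem_product.1 b2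
      simp only [Prod.mk.injEq] at hab
      obtain ⟨e1, ⟨e2, e3⟩, e4⟩ := hab
      have f : ∀ u v : ℕ, Squarefree u → Squarefree v → u.primeFactors = v.primeFactors →
          u = v := by
        intro u v hu hv h
        have f1 := Nat.prod_primeFactors_of_squarefree hu
        have f2 := Nat.prod_primeFactors_of_squarefree hv
        rw [h, f2] at f1
        exact f1.symm
      exact Prod.ext (f _ _ (hΛ _ a1) (hΛ _ b1) e1) (Prod.ext
        (Prod.ext (f _ _ (hX _ a2) (hX _ b2) e2) (f _ _ (hX _ a3) (hX _ b3) e3)) e4)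
  refine h1.trans ?_
  rw [card_product, card_product, card_product, card_powerset, card_tup]
  have h2 : #(insert p₀ A.primeFactors) ≤ κ + 1 := (card_insert_le _ _).trans (by omega)
  have h3 : 2 ^ #A.primeFactors ≤ 2 ^ κ := Nat.pow_le_pow_right two_pos hω
  calc 2 ^ #A.primeFactors * (2 ^ #A.primeFactors * 2 ^ #A.primeFactors *
        #(insert p₀ A.primeFactors) ^ m)
      ≤ 2 ^ κ * (2 ^ κ * 2 ^ κ * (κ + 1) ^ m) :=
        Nat.mul_le_mul h3 (Nat.mul_le_mul (Nat.mul_le_mul h3 h3) (Nat.pow_le_pow_left h2 _))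
    _ = 2 ^ (3 * κ) * (κ + 1) ^ m := by
        rw [show 3 * κ = κ + κ + κ by ring, pow_add, pow_add]
        ring

/-- equality of two numbers with the same value of `psiS` -/
theorem eq_of_psiS {i β κ A A' M M' : ℕ} (hok : Ok i β κ) (hA : A ≠ 0) (hA' : A' ≠ 0)
    (h1 : A ≤ 2 ^ M) (h2 : A' ≤ 2 ^ M') (hM : M ≤ (8 * i + 16) * β) (hM' : M' ≤ (8 * i + 16) * β)
    (hMM : M + M' + κ < (2 * i + 1) * β)
    (h : psiS (2 ^ ((2 * i + 1) * β)) A = psiS (2 ^ ((2 * i + 1) * β)) A') : A = A' := by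
  have h3 := length_le hA h1
  have h4 := length_le hA' h2
  refine spacingS (N := 2 ^ ((2 * i + 1) * β)) (m := (8 * i + 16) * β) (D := 0) hA hA' (h3.trans hM) (h4.trans hM') ?_ ?_
  · rw [h, sub_self, abs_zero]
    exact le_rfl
  · have h5 := hok.po
    calc (0 + (8 * i + 16) * β) * (A * A') ≤ 2 ^ κ * (2 ^ M * 2 ^ M') :=
          Nat.mul_le_mul (by omega) (Nat.mul_le_mul h1 h2)
      _ = 2 ^ (M + M' + κ) := by rw [← pow_add, ← pow_add]; congr 1; ring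
      _ < 2 ^ ((2 * i + 1) * β) := Nat.pow_lt_pow_right (by norm_num) hMM

end Pool.Agent.Helper47.P4
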