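import Mathlib
import Pool.Agent.Helper47.P4.Pre

/-!
# PS4, T1: pairs with a common prime
-/

set_option autoImplicit false

namespace Pool.Agent.Helper47.P4

open Finset Pool.Agent.Helper58.LT Pool.Agent.Helper19.P3

theorem eq_of_pf {u v : ℕ} (hu : Squarefree u) (hv : Squarefree v)
    (h : u.primeFactors = v.primeFactors) : u = v := by
  have f1 := Nat.prod_primeFactors_of_squarefree hu
  have f2 := Nat.prod_primeFactors_of_squarefree hv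
  rw [h, f2] at f1
  exact f1.symm

/-- elements of `Λ × X × X × K^m` with all entries dividing `A` -/
theorem fib' (Λ X K : Finset ℕ) (m : ℕ) (hΛ : ∀ t ∈ Λ, Squarefree t) (hX : ∀ t ∈ X, Squarefree t)
    {A κ : ℕ} (hA : A ≠ 0) (hω : #A.primeFactors ≤ κ) :
    #{z ∈ Λ ×ˢ X ×ˢ X ×ˢ tup K m | z.1 ∣ A ∧ z.2.1 ∣ A ∧ z.2.2.1 ∣ A ∧
      ∀ k, z.2.2.2 k ∈ A.primeFactors} ≤ 2 ^ (3 * κ) * κ ^ m := by
  classical
  have h1 : #{z ∈ Λ ×ˢ X ×ˢ X ×ˢ tup K m | z.1 ∣ A ∧ z.2.1 ∣ A ∧ z.2.2.1 ∣ A ∧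
      ∀ k, z.2.2.2 k ∈ A.primeFactors} ≤
      #(A.primeFactors.powerset ×ˢ A.primeFactors.powerset ×ˢ A.primeFactors.powerset ×ˢ
        tup A.primeFactors m) := by
    refine card_le_card_of_injOn (fun z => (z.1.primeFactors,
      z.2.1.primeFactors, z.2.2.1.primeFactors, z.2.2.2)) ?_ ?_
    · intro z hz
      rw [mem_coe, mem_filter] at hz
      obtain ⟨-, h2, h3, h4, h5⟩ := hz
      rw [mem_coe, mem_product, mem_product, mem_product, mem_powerset, mem_powerset,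
        mem_powerset, mem_tup]
      exact ⟨Nat.primeFactors_mono h2 hA, Nat.primeFactors_mono h3 hA,
        Nat.primeFactors_mono h4 hA, h5⟩
    · intro a ha b hb hab
      rw [mem_coe, mem_filter] at ha hb
      obtain ⟨a1, a2⟩ := mem_product.1 ha.1
      obtain ⟨a2, a3⟩ := mem_product.1 a2
      obtain ⟨a3, -⟩ := mem_product.1 a3
      obtain ⟨b1, b2⟩ := mem_product.1 hb.1
      obtain ⟨b2, b3⟩ := mem_product.1 b2
      obtain ⟨b3, -⟩ := mem_product.1 b3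
      simp only [Prod.mk.injEq] at hab
      obtain ⟨e1, e2, e3, e4⟩ := hab
      exact Prod.ext (eq_of_pf (hΛ _ a1) (hΛ _ b1) e1) (Prod.ext
        (eq_of_pf (hX _ a2) (hX _ b2) e2)
        (Prod.ext (eq_of_pf (hX _ a3) (hX _ b3) e3) e4))
  refine h1.trans ?_
  rw [card_product, card_product, card_product, card_powerset, card_tup]
  have h3 : 2 ^ #A.primeFactors ≤ 2 ^ κ := Nat.pow_le_pow_right two_pos hω
  calc 2 ^ #A.primeFactors * (2 ^ #A.primeFactors * (2 ^ #A.primeFactors *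
        #A.primeFactors ^ m))
      ≤ 2 ^ κ * (2 ^ κ * (2 ^ κ * κ ^ m)) :=
        Nat.mul_le_mul h3 (Nat.mul_le_mul h3 (Nat.mul_le_mul h3 (Nat.pow_le_pow_left hω _)))
    _ = 2 ^ (3 * κ) * κ ^ m := by
        rw [show 3 * κ = κ + κ + κ by ring, pow_add, pow_add]
        ring

theorem fib_pairs (Λ X K : Finset ℕ) (m : ℕ) (hΛ : ∀ t ∈ Λ, Squarefree t)
    (hX : ∀ t ∈ X, Squarefree t) (hK : ∀ p ∈ K, p.Prime) {κ : ℕ}
    (hω : ∀ z ∈ Λ ×ˢ X ×ˢ X ×ˢ tup K m, #(z.1 * (z.2.1 * (z.2.2.1 * ∏ j, z.2.2.2 j))).primeFactors ≤ κ) :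
    #{z ∈ (Λ ×ˢ X ×ˢ X ×ˢ tup K m) ×ˢ (Λ ×ˢ X ×ˢ X ×ˢ tup K m) |
      z.1.1 * (z.1.2.1 * (z.1.2.2.1 * ∏ j, z.1.2.2.2 j)) =
      z.2.1 * (z.2.2.1 * (z.2.2.2.1 * ∏ j, z.2.2.2.2 j))} ≤
      2 ^ (3 * κ) * κ ^ m * #(Λ ×ˢ X ×ˢ X ×ˢ tup K m) := by
  classical
  refine card_le_mul_card_image_of_maps_to (f := Prod.fst) ?_ _ ?_
  · intro z hz
    exact (mem_product.1 (mem_filter.1 hz).1).1
  · intro w hw
    obtain ⟨w1, w2⟩ := mem_product.1 hw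
    obtain ⟨w2, w3⟩ := mem_product.1 w2
    obtain ⟨w3, w4⟩ := mem_product.1 w3
    rw [mem_tup] at w4
    have hA : w.1 * (w.2.1 * (w.2.2.1 * ∏ j, w.2.2.2 j)) ≠ 0 :=
      mul_ne_zero (hΛ _ w1).ne_zero (mul_ne_zero (hX _ w2).ne_zero (mul_ne_zero
        (hX _ w3).ne_zero (prod_ne_zero_iff.2 fun j _ => (hK _ (w4 j)).ne_zero)))
    refine le_trans ?_ (fib' Λ X K m hΛ hX hA (hω w hw))
    refine card_le_card_of_injOn Prod.snd ?_ ?_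
    · intro z hz
      rw [mem_coe, mem_filter, mem_filter] at hz
      obtain ⟨⟨h1, h2⟩, h3⟩ := hz
      obtain ⟨-, h1⟩ := mem_product.1 h1
      rw [mem_coe, mem_filter]
      rw [h3] at h2
      refine ⟨h1, ?_, ?_, ?_, ?_⟩
      · rw [h2]
        exact dvd_mul_right _ _
      · rw [h2]
        exact (dvd_mul_right _ _).trans (dvd_mul_left _ _)
      · rw [h2]
        exact ((dvd_mul_right _ _).trans (dvd_mul_left _ _)).trans (dvd_mul_left _ _)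
      · intro k
        obtain ⟨-, h4⟩ := mem_product.1 h1
        obtain ⟨-, h4⟩ := mem_product.1 h4
        obtain ⟨-, h4⟩ := mem_product.1 h4
        rw [mem_tup] at h4
        refine Nat.mem_primeFactors.2 ⟨hK _ (h4 k), ?_, hA⟩
        rw [h2]
        exact (((dvd_prod_of_mem _ (mem_univ k)).trans (dvd_mul_left _ _)).trans
          (dvd_mul_left _ _)).trans (dvd_mul_left _ _)
    · intro a ha b hb hab
      rw [mem_coe, mem_filter] at ha hb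
      exact Prod.ext (ha.2.trans hb.2.symm) hab

end Pool.Agent.Helper47.P4

namespace Pool.Agent.Helper19.P3

open Finset Pool.Agent.Helper58.LT Pool.Agent.Helper47.P4

/-- size of the product -/
theorem p4_size {i r s c₀ β κ : ℕ} (hsr : s + r = i + 1) {Λ X : Finset ℕ}
    (hΛ : Λ ⊆ Sm κ (s * β + c₀ * κ)) (hX : X ⊆ Sm κ (β / 2 + c₀ * κ))
    {w : ℕ × ℕ × ℕ × (Fin (r - 1) → ℕ)} (hw : w ∈ Λ ×ˢ X ×ˢ X ×ˢ tup (PP β κ) (r - 1))
    (S : Finset (Fin (r - 1))) :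
    w.1 * (w.2.1 * (w.2.2.1 * ∏ j ∈ S, w.2.2.2 j)) ≤
      2 ^ ((s + 1 + #S) * β + (3 * c₀ + #S) * κ) := by
  obtain ⟨w1, w2⟩ := mem_product.1 hw
  obtain ⟨w2, w3⟩ := mem_product.1 w2
  obtain ⟨w3, w4⟩ := mem_product.1 w3
  rw [mem_tup] at w4
  have h1 := (mem_Sm' (hΛ w1)).2.1
  have h2 := (mem_Sm' (hX w2)).2.1
  have h3 := (mem_Sm' (hX w3)).2.1
  have h4 := prod_le_pow S fun j => (mem_PP' (w4 j)).2.2
  calc w.1 * (w.2.1 * (w.2.2.1 * ∏ j ∈ S, w.2.2.2 j))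
      ≤ 2 ^ (s * β + c₀ * κ) * (2 ^ (β / 2 + c₀ * κ) * (2 ^ (β / 2 + c₀ * κ) *
        2 ^ (#S * (β + κ)))) :=
        Nat.mul_le_mul h1 (Nat.mul_le_mul h2 (Nat.mul_le_mul h3 h4))
    _ = 2 ^ ((s * β + c₀ * κ) + ((β / 2 + c₀ * κ) + ((β / 2 + c₀ * κ) + #S * (β + κ)))) := by
        rw [← pow_add, ← pow_add, ← pow_add]
    _ ≤ 2 ^ ((s + 1 + #S) * β + (3 * c₀ + #S) * κ) := by
        refine Nat.pow_le_pow_right two_pos ?_
        have : β / 2 + β / 2 ≤ β := by omega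
        nlinarith

/-- T1, a common prime -/
theorem T1_common (i r s c₀ : ℕ) (hsr : s + r = i + 1) (hr : 2 ≤ r) (hs : 2 ≤ s) :
    ∃ C : ℕ, ∀ β κ : ℕ, Ok i β κ → C * κ ≤ β → ∀ Λ X : Finset ℕ,
      Λ ⊆ Sm κ (s * β + c₀ * κ) → X ⊆ Sm κ (β / 2 + c₀ * κ) →
      #Λ ≤ 2 ^ ((s - 1) * β + (β + 1) / 2 + c₀ * κ) →
      #{z ∈ (Λ ×ˢ X ×ˢ X ×ˢ tup (PP β κ) (r - 1)) ×ˢ (Λ ×ˢ X ×ˢ X ×ˢ tup (PP β κ) (r - 1)) |
        psiS (2 ^ ((2 * i + 1) * β)) (z.1.1 * (z.1.2.1 * (z.1.2.2.1 * ∏ j, z.1.2.2.2 j))) =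
        psiS (2 ^ ((2 * i + 1) * β)) (z.2.1 * (z.2.2.1 * (z.2.2.2.1 * ∏ j, z.2.2.2.2 j))) ∧
        ∃ j k, z.1.2.2.2 j = z.2.2.2.2 k} ≤ 2 ^ (i * β + (β + 1) / 2 + C * κ) := by
  classical
  refine ⟨6 * c₀ + 4 * r + 8, ?_⟩
  intro β κ hok hC Λ X hΛ hX hcard
  have hκ := hok.one
  have hβκ : κ ≤ β := le_trans (by nlinarith) hC
  set N : ℕ := 2 ^ ((2 * i + 1) * β) with hN
  have hΛs : ∀ t ∈ Λ, Squarefree t := fun t ht => (mem_Sm' (hΛ ht)).2.2.1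
  have hXs : ∀ t ∈ X, Squarefree t := fun t ht => (mem_Sm' (hX ht)).2.2.1
  have hPs : ∀ p ∈ PP β κ, p.Prime := fun p hp => (mem_PP' hp).1
  -- the number of prime factors
  have hω : ∀ z ∈ Λ ×ˢ X ×ˢ X ×ˢ tup (PP β κ) (r - 1),
      #(z.1 * (z.2.1 * (z.2.2.1 * ∏ j, z.2.2.2 j))).primeFactors ≤ κ := by
    intro z hz
    have h1 := p4_size hsr hΛ hX hz univ
    obtain ⟨w1, w2⟩ := mem_product.1 hz
    obtain ⟨w2, w3⟩ := mem_product.1 w2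
    obtain ⟨w3, w4⟩ := mem_product.1 w3
    rw [mem_tup] at w4
    have hA : z.1 * (z.2.1 * (z.2.2.1 * ∏ j, z.2.2.2 j)) ≠ 0 :=
      mul_ne_zero (hΛs _ w1).ne_zero (mul_ne_zero (hXs _ w2).ne_zero (mul_ne_zero
        (hXs _ w3).ne_zero (prod_ne_zero_iff.2 fun j _ => (hPs _ (w4 j)).ne_zero)))
    refine hok.om _ (Nat.one_le_iff_ne_zero.2 hA) (h1.trans ?_)
    refine Nat.pow_le_pow_right two_pos ?_
    rw [card_univ, Fintype.card_fin]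
    obtain ⟨r', rfl⟩ : ∃ r', r = r' + 1 := ⟨r - 1, by omega⟩
    rw [Nat.add_sub_cancel]
    have h2 : (3 * c₀ + r') * κ ≤ β := le_trans (by nlinarith) hC
    nlinarith
  -- equal numbers
  have key : ∀ z ∈ {z ∈ (Λ ×ˢ X ×ˢ X ×ˢ tup (PP β κ) (r - 1)) ×ˢ
      (Λ ×ˢ X ×ˢ X ×ˢ tup (PP β κ) (r - 1)) |
        psiS N (z.1.1 * (z.1.2.1 * (z.1.2.2.1 * ∏ j, z.1.2.2.2 j))) =
        psiS N (z.2.1 * (z.2.2.1 * (z.2.2.2.1 * ∏ j, z.2.2.2.2 j))) ∧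
        ∃ j k, z.1.2.2.2 j = z.2.2.2.2 k},
      z ∈ {z ∈ (Λ ×ˢ X ×ˢ X ×ˢ tup (PP β κ) (r - 1)) ×ˢ
        (Λ ×ˢ X ×ˢ X ×ˢ tup (PP β κ) (r - 1)) |
        z.1.1 * (z.1.2.1 * (z.1.2.2.1 * ∏ j, z.1.2.2.2 j)) =
        z.2.1 * (z.2.2.1 * (z.2.2.2.1 * ∏ j, z.2.2.2.2 j))} := by
    intro z hz
    rw [mem_filter] at hz ⊢
    obtain ⟨hz1, hz2, j, k, hjk⟩ := hz
    refine ⟨hz1, ?_⟩
    obtain ⟨ha, hb⟩ := mem_product.1 hz1
    obtain ⟨a1, a2⟩ := mem_product.1 ha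
    obtain ⟨a2, a3⟩ := mem_product.1 a2
    obtain ⟨a3, a4⟩ := mem_product.1 a3
    rw [mem_tup] at a4
    obtain ⟨b1, b2⟩ := mem_product.1 hb
    obtain ⟨b2, b3⟩ := mem_product.1 b2
    obtain ⟨b3, b4⟩ := mem_product.1 b3
    rw [mem_tup] at b4
    have sa := p4_size hsr hΛ hX ha (univ.erase j)
    have sb := p4_size hsr hΛ hX hb (univ.erase k)
    have ea : z.1.1 * (z.1.2.1 * (z.1.2.2.1 * ∏ j, z.1.2.2.2 j)) =
        z.1.2.2.2 j * (z.1.1 * (z.1.2.1 * (z.1.2.2.1 * ∏ j ∈ univ.erase j, z.1.2.2.2 j))) := by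
      rw [← mul_prod_erase univ _ (mem_univ j)]
      ring
    have eb : z.2.1 * (z.2.2.1 * (z.2.2.2.1 * ∏ j, z.2.2.2.2 j)) =
        z.1.2.2.2 j * (z.2.1 * (z.2.2.1 * (z.2.2.2.1 * ∏ j ∈ univ.erase k, z.2.2.2.2 j))) := by
      rw [← mul_prod_erase univ _ (mem_univ k), hjk]
      ring
    have hA : z.1.1 * (z.1.2.1 * (z.1.2.2.1 * ∏ j ∈ univ.erase j, z.1.2.2.2 j)) ≠ 0 :=
      mul_ne_zero (hΛs _ a1).ne_zero (mul_ne_zero (hXs _ a2).ne_zero (mul_ne_zero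
        (hXs _ a3).ne_zero (prod_ne_zero_iff.2 fun j _ => (hPs _ (a4 j)).ne_zero)))
    have hB : z.2.1 * (z.2.2.1 * (z.2.2.2.1 * ∏ j ∈ univ.erase k, z.2.2.2.2 j)) ≠ 0 :=
      mul_ne_zero (hΛs _ b1).ne_zero (mul_ne_zero (hXs _ b2).ne_zero (mul_ne_zero
        (hXs _ b3).ne_zero (prod_ne_zero_iff.2 fun j _ => (hPs _ (b4 j)).ne_zero)))
    have hp : z.1.2.2.2 j ≠ 0 := (hPs _ (a4 j)).ne_zero
    rw [ea, eb] at hz2 ⊢
    rw [psiS_mul hp hA, psiS_mul hp hB] at hz2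
    congr 1
    have hc1 : #(univ.erase j) = r - 2 := by
      rw [card_erase_of_mem (mem_univ j), card_univ, Fintype.card_fin]
      omega
    have hc2 : #(univ.erase k) = r - 2 := by
      rw [card_erase_of_mem (mem_univ k), card_univ, Fintype.card_fin]
      omega
    rw [hc1] at sa
    rw [hc2] at sb
    obtain ⟨r', rfl⟩ : ∃ r', r = r' + 2 := ⟨r - 2, by omega⟩
    rw [Nat.add_sub_cancel] at sa sb
    have hi : s + 1 + r' = i := by omega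
    rw [hi] at sa sb
    have h2 : (6 * c₀ + 2 * r' + 1) * κ < β :=
      lt_of_lt_of_le (by nlinarith) hC
    have h3 : (3 * c₀ + r') * κ ≤ β := by nlinarith
    refine eq_of_psiS hok hA hB sa sb (by nlinarith) (by nlinarith) ?_ (by linarith)
    nlinarith
  refine (card_le_card key).trans ?_
  refine (fib_pairs Λ X (PP β κ) (r - 1) hΛs hXs hPs hω).trans ?_
  rw [card_product, card_product, card_product, card_tup]
  have hX' := card_Sm_sub hX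
  have hP' := card_PP β κ
  have hκ2 : κ ≤ 2 ^ κ := Nat.lt_two_pow_self.le
  calc 2 ^ (3 * κ) * κ ^ (r - 1) * (#Λ * (#X * (#X * #(PP β κ) ^ (r - 1))))
      ≤ 2 ^ (3 * κ) * (2 ^ κ) ^ (r - 1) * (2 ^ ((s - 1) * β + (β + 1) / 2 + c₀ * κ) *
        (2 ^ (β / 2 + c₀ * κ) * (2 ^ (β / 2 + c₀ * κ) * (2 ^ (β + κ)) ^ (r - 1)))) := by
        gcongr
    _ = 2 ^ (3 * κ + κ * (r - 1) + (((s - 1) * β + (β + 1) / 2 + c₀ * κ) +
        ((β / 2 + c₀ * κ) + ((β / 2 + c₀ * κ) + (β + κ) * (r - 1))))) := by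
        simp only [← pow_mul, ← pow_add]
    _ ≤ 2 ^ (i * β + (β + 1) / 2 + (6 * c₀ + 4 * r + 8) * κ) := by
        refine Nat.pow_le_pow_right two_pos ?_
        obtain ⟨r', rfl⟩ : ∃ r', r = r' + 1 := ⟨r - 1, by omega⟩
        obtain ⟨s', rfl⟩ : ∃ s', s = s' + 1 := ⟨s - 1, by omega⟩
        have hi : i = s' + 1 + r' := by omega
        rw [Nat.add_sub_cancel, Nat.add_sub_cancel, hi]
        have : β / 2 + β / 2 ≤ β := by omega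
        nlinarith

end Pool.Agent.Helper19.P3
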