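import Mathlib
import Pool.Agent.Helper47.P4.Common

/-!
# PS4, T1: the sum of the cases
-/

set_option autoImplicit false

namespace Pool.Agent.Helper19.P3

open Finset Pool.Agent.Helper58.LT Pool.Agent.Helper47.P4

theorem T1_count_of (i r s c₀ : ℕ) (hsr : s + r = i + 1) (hr : 2 ≤ r) (hs : 2 ≤ s)
    (hD : ∃ C : ℕ, ∀ β κ : ℕ, Ok i β κ → C * κ ≤ β → ∀ Λ X : Finset ℕ,
      Λ ⊆ Sm κ (s * β + c₀ * κ) → X ⊆ Sm κ (β / 2 + c₀ * κ) →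
      #Λ ≤ 2 ^ ((s - 1) * β + (β + 1) / 2 + c₀ * κ) → ∀ a₀ : ℤ,
      (∀ t ∈ Λ, |psiS (2 ^ ((2 * i + 1) * β)) t - a₀| ≤ 2 ^ (2 * i * β + c₀ * κ)) →
      #{z ∈ (Λ ×ˢ X ×ˢ X ×ˢ tup (PP β κ) (r - 1)) ×ˢ (Λ ×ˢ X ×ˢ X ×ˢ tup (PP β κ) (r - 1)) |
        psiS (2 ^ ((2 * i + 1) * β)) (z.1.1 * (z.1.2.1 * (z.1.2.2.1 * ∏ j, z.1.2.2.2 j))) =
        psiS (2 ^ ((2 * i + 1) * β)) (z.2.1 * (z.2.2.1 * (z.2.2.2.1 * ∏ j, z.2.2.2.2 j))) ∧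
        ∀ j k, z.1.2.2.2 j ≠ z.2.2.2.2 k} ≤ 2 ^ (i * β + (β + 1) / 2 + C * κ)) :
    ∃ C : ℕ, ∀ β κ : ℕ, Ok i β κ → C * κ ≤ β → ∀ Λ X : Finset ℕ,
      Λ ⊆ Sm κ (s * β + c₀ * κ) → X ⊆ Sm κ (β / 2 + c₀ * κ) →
      #Λ ≤ 2 ^ ((s - 1) * β + (β + 1) / 2 + c₀ * κ) → ∀ a₀ : ℤ,
      (∀ t ∈ Λ, |psiS (2 ^ ((2 * i + 1) * β)) t - a₀| ≤ 2 ^ (2 * i * β + c₀ * κ)) →
      en (Λ ×ˢ X ×ˢ X ×ˢ tup (PP β κ) (r - 1)) (fun z => psiS (2 ^ ((2 * i + 1) * β)) z.1 +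
        psiS (2 ^ ((2 * i + 1) * β)) z.2.1 + psiS (2 ^ ((2 * i + 1) * β)) z.2.2.1 +
        sm' (psiS (2 ^ ((2 * i + 1) * β))) z.2.2.2) ≤ 2 ^ (i * β + (β + 1) / 2 + C * κ) := by
  classical
  obtain ⟨C₁, h1⟩ := hD
  obtain ⟨C₂, h2⟩ := T1_common i r s c₀ hsr hr hs
  refine ⟨C₁ + C₂ + 1, ?_⟩
  intro β κ hok hC Λ X hΛ hX hcard a₀ hw
  have hκ := hok.one
  have h1' := h1 β κ hok (le_trans (Nat.mul_le_mul_right κ (by omega)) hC) Λ X hΛ hX hcard a₀ hw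
  have h2' := h2 β κ hok (le_trans (Nat.mul_le_mul_right κ (by omega)) hC) Λ X hΛ hX hcard
  set N : ℕ := 2 ^ ((2 * i + 1) * β) with hN
  have hval : ∀ w ∈ Λ ×ˢ X ×ˢ X ×ˢ tup (PP β κ) (r - 1),
      psiS N (w.1 * (w.2.1 * (w.2.2.1 * ∏ j, w.2.2.2 j))) =
      psiS N w.1 + psiS N w.2.1 + psiS N w.2.2.1 + sm' (psiS N) w.2.2.2 := by
    intro w hw
    obtain ⟨w1, w2⟩ := mem_product.1 hw
    obtain ⟨w2, w3⟩ := mem_product.1 w2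
    obtain ⟨w3, w4⟩ := mem_product.1 w3
    rw [mem_tup] at w4
    have e1 := (mem_Sm' (hΛ w1)).1
    have e2 := (mem_Sm' (hX w2)).1
    have e3 := (mem_Sm' (hX w3)).1
    have e4 : ∏ j, w.2.2.2 j ≠ 0 := prod_ne_zero_iff.2 fun j _ => (mem_PP' (w4 j)).1.ne_zero
    rw [psiS_mul (by omega) (mul_ne_zero (by omega) (mul_ne_zero (by omega) e4)),
      psiS_mul (by omega) (mul_ne_zero (by omega) e4), psiS_mul (by omega) e4,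
      psiS_prod _ fun j => (mem_PP' (w4 j)).1.ne_zero]
    unfold sm'
    ring
  have hsub : {z ∈ (Λ ×ˢ X ×ˢ X ×ˢ tup (PP β κ) (r - 1)) ×ˢ
      (Λ ×ˢ X ×ˢ X ×ˢ tup (PP β κ) (r - 1)) |
        psiS N z.1.1 + psiS N z.1.2.1 + psiS N z.1.2.2.1 + sm' (psiS N) z.1.2.2.2 =
        psiS N z.2.1 + psiS N z.2.2.1 + psiS N z.2.2.2.1 + sm' (psiS N) z.2.2.2.2} ⊆
      {z ∈ (Λ ×ˢ X ×ˢ X ×ˢ tup (PP β κ) (r - 1)) ×ˢ (Λ ×ˢ X ×ˢ X ×ˢ tup (PP β κ) (r - 1)) |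
        psiS N (z.1.1 * (z.1.2.1 * (z.1.2.2.1 * ∏ j, z.1.2.2.2 j))) =
        psiS N (z.2.1 * (z.2.2.1 * (z.2.2.2.1 * ∏ j, z.2.2.2.2 j))) ∧
        ∀ j k, z.1.2.2.2 j ≠ z.2.2.2.2 k} ∪
      {z ∈ (Λ ×ˢ X ×ˢ X ×ˢ tup (PP β κ) (r - 1)) ×ˢ (Λ ×ˢ X ×ˢ X ×ˢ tup (PP β κ) (r - 1)) |
        psiS N (z.1.1 * (z.1.2.1 * (z.1.2.2.1 * ∏ j, z.1.2.2.2 j))) =
        psiS N (z.2.1 * (z.2.2.1 * (z.2.2.2.1 * ∏ j, z.2.2.2.2 j))) ∧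
        ∃ j k, z.1.2.2.2 j = z.2.2.2.2 k} := by
    intro z hz
    rw [mem_filter] at hz
    obtain ⟨hz1, hz2⟩ := hz
    have ha := (mem_product.1 hz1).1
    have hb := (mem_product.1 hz1).2
    rw [← hval _ ha, ← hval _ hb] at hz2
    rw [mem_union, mem_filter, mem_filter]
    by_cases h : ∃ j k, z.1.2.2.2 j = z.2.2.2.2 k
    · exact Or.inr ⟨hz1, hz2, h⟩
    · push Not at h
      exact Or.inl ⟨hz1, hz2, h⟩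
  unfold en
  refine (card_le_card hsub).trans ((card_union_le _ _).trans ?_)
  calc _ ≤ 2 ^ (i * β + (β + 1) / 2 + C₁ * κ) + 2 ^ (i * β + (β + 1) / 2 + C₂ * κ) :=
        add_le_add h1' h2'
    _ ≤ 2 ^ (i * β + (β + 1) / 2 + (C₁ + C₂) * κ) + 2 ^ (i * β + (β + 1) / 2 + (C₁ + C₂) * κ) :=
        add_le_add
          (Nat.pow_le_pow_right two_pos (by nlinarith [Nat.zero_le (C₂ * κ)]))
          (Nat.pow_le_pow_right two_pos (by nlinarith [Nat.zero_le (C₁ * κ)]))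
    _ = 2 ^ (i * β + (β + 1) / 2 + (C₁ + C₂) * κ + 1) := by rw [pow_succ]; ring
    _ ≤ 2 ^ (i * β + (β + 1) / 2 + (C₁ + C₂ + 1) * κ) :=
        Nat.pow_le_pow_right two_pos (by nlinarith)

end Pool.Agent.Helper19.P3
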