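import Mathlib
import Pool.Agent.Helper47.P4.CountOf
import Pool.Agent.Helper33.P3.LowOf
import Pool.Agent.Helper13.P3.Quad

/-!
# PS4, T1
-/

set_option autoImplicit false

namespace Pool.Agent.Helper19.P3

open Finset Pool.Agent.Helper58.LT Pool.Agent.Helper47.P4

/-- T1 -/
theorem T1_count (i r s c₀ : ℕ) (hsr : s + r = i + 1) (hr : 2 ≤ r) (hs : 2 ≤ s) :
    ∃ C : ℕ, ∀ β κ : ℕ, Ok i β κ → C * κ ≤ β → ∀ Λ X : Finset ℕ,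
      Λ ⊆ Sm κ (s * β + c₀ * κ) → X ⊆ Sm κ (β / 2 + c₀ * κ) →
      #Λ ≤ 2 ^ ((s - 1) * β + (β + 1) / 2 + c₀ * κ) → ∀ a₀ : ℤ,
      (∀ t ∈ Λ, |psiS (2 ^ ((2 * i + 1) * β)) t - a₀| ≤ 2 ^ (2 * i * β + c₀ * κ)) →
      en (Λ ×ˢ X ×ˢ X ×ˢ tup (PP β κ) (r - 1)) (fun z => psiS (2 ^ ((2 * i + 1) * β)) z.1 +
        psiS (2 ^ ((2 * i + 1) * β)) z.2.1 + psiS (2 ^ ((2 * i + 1) * β)) z.2.2.1 +
        sm' (psiS (2 ^ ((2 * i + 1) * β))) z.2.2.2) ≤ 2 ^ (i * β + (β + 1) / 2 + C * κ) := by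
  rcases Nat.lt_or_ge (s + 1) r with h | h
  · exact T1_count_of i r s c₀ hsr hr hs (T1_high i r s c₀ hsr hs h)
  · obtain ⟨C, hC⟩ := quad_count i (c₀ + r + 3) (by omega)
    exact T1_count_of i r s c₀ hsr hr hs (T1_low_of i r s c₀ C hsr hr hs h hC)

end Pool.Agent.Helper19.P3
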