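import Mathlib
import Pool.Agent.Helper47.P4.Common
import Pool.Agent.Helper80.P3.Window

/-!
# PS4, T0
-/

set_option autoImplicit false

namespace Pool.Agent.Helper47.P4

open Finset Pool.Agent.Helper58.LT Pool.Agent.Helper19.P3

theorem t0_size {m β κ M₁ M₂ : ℕ} {A X : Finset ℕ} (hA : A ⊆ Sm κ M₁) (hX : X ⊆ Sm κ M₂)
    {w : ℕ × ℕ × ℕ × (Fin m → ℕ)} (hw : w ∈ A ×ˢ X ×ˢ X ×ˢ tup (PP β κ) m) :
    w.1 * (w.2.1 * (w.2.2.1 * ∏ j, w.2.2.2 j)) ≤ 2 ^ (M₁ + 2 * M₂ + m * β + m * κ) ∧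
    ∏ j, w.2.2.2 j ≤ 2 ^ (m * β + m * κ) ∧ w.1 * (w.2.1 * w.2.2.1) ≠ 0 ∧
    ∏ j, w.2.2.2 j ≠ 0 ∧ ∀ p ∈ (w.1 * (w.2.1 * w.2.2.1)).primeFactors, p ≤ 2 ^ κ := by
  obtain ⟨w1, w2⟩ := mem_product.1 hw
  obtain ⟨w2, w3⟩ := mem_product.1 w2
  obtain ⟨w3, w4⟩ := mem_product.1 w3
  rw [mem_tup] at w4
  obtain ⟨a1, a2, a3, a4⟩ := mem_Sm' (hA w1)
  obtain ⟨b1, b2, b3, b4⟩ := mem_Sm' (hX w2)
  obtain ⟨c1, c2, c3, c4⟩ := mem_Sm' (hX w3)
  have h4 := prod_le_pow univ fun j => (mem_PP' (w4 j)).2.2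
  rw [card_univ, Fintype.card_fin, mul_add] at h4
  refine ⟨?_, h4, mul_ne_zero (by omega) (mul_ne_zero (by omega) (by omega)),
    prod_ne_zero_iff.2 fun j _ => (mem_PP' (w4 j)).1.ne_zero, ?_⟩
  · calc w.1 * (w.2.1 * (w.2.2.1 * ∏ j, w.2.2.2 j))
        ≤ 2 ^ M₁ * (2 ^ M₂ * (2 ^ M₂ * 2 ^ (m * β + m * κ))) :=
          Nat.mul_le_mul a2 (Nat.mul_le_mul b2 (Nat.mul_le_mul c2 h4))
      _ = 2 ^ (M₁ + 2 * M₂ + m * β + m * κ) := by
          rw [← pow_add, ← pow_add, ← pow_add]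
          congr 1
          ring
  · intro p hp
    rw [Nat.primeFactors_mul (by omega) (mul_ne_zero (by omega) (by omega)),
      Nat.primeFactors_mul (by omega) (by omega), mem_union, mem_union] at hp
    rcases hp with hp | hp | hp
    · exact a4 p hp
    · exact b4 p hp
    · exact c4 p hp

end Pool.Agent.Helper47.P4

namespace Pool.Agent.Helper19.P3

open Finset Pool.Agent.Helper58.LT Pool.Agent.Helper47.P4

/-- T0 -/
theorem T0_count (i m c₀ : ℕ) : ∃ C : ℕ, ∀ β κ : ℕ, Ok i β κ → C * κ ≤ β →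
    ∀ (M₁ M₂ : ℕ) (A X : Finset ℕ), A ⊆ Sm κ M₁ → X ⊆ Sm κ M₂ →
      2 * (M₁ + 2 * M₂ + m * β) ≤ (2 * i + 1) * β + c₀ * κ →
      en (A ×ˢ X ×ˢ X ×ˢ tup (PP β κ) m) (fun z => psiS (2 ^ ((2 * i + 1) * β)) z.1 +
        psiS (2 ^ ((2 * i + 1) * β)) z.2.1 + psiS (2 ^ ((2 * i + 1) * β)) z.2.2.1 +
        sm' (psiS (2 ^ ((2 * i + 1) * β))) z.2.2.2) ≤ 2 ^ (i * β + (β + 1) / 2 + C * κ) := by
  classical
  refine ⟨4 * (c₀ + m + 3) + 4 * m + 8, ?_⟩
  intro β κ hok hC M₁ M₂ A X hA hX hsz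
  have hκ := hok.one
  obtain ⟨E, hE⟩ : ∃ E, E = M₁ + 2 * M₂ + m * β + m * κ := ⟨_, rfl⟩
  obtain ⟨C', hC'⟩ : ∃ C', C' = c₀ + m + 3 := ⟨_, rfl⟩
  rw [← hC'] at hC
  have q1 : 4 * (C' * κ) + 4 * (m * κ) + 8 * κ ≤ β := by nlinarith
  have q2 : c₀ * κ + m * κ + 3 * κ = C' * κ := by rw [hC']; ring
  have hE2 : 2 * E ≤ (2 * i + 1) * β + c₀ * κ + 2 * (m * κ) := by rw [hE]; linarith
  have q3 : (2 * i + 1) * β = 2 * (i * β) + β := by ring
  have q4 : (8 * i + 16) * β = 8 * (i * β) + 16 * β := by ring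
  have hmi : m * β ≤ i * β := by
    rcases Nat.lt_or_ge i m with h | h
    · exfalso
      have h1 : (i + 1) * β ≤ m * β := Nat.mul_le_mul_right β h
      have h2 : (i + 1) * β = i * β + β := by ring
      omega
    · exact Nat.mul_le_mul_right β h
  set N : ℕ := 2 ^ ((2 * i + 1) * β) with hN
  set T := A ×ˢ X ×ˢ X ×ˢ tup (PP β κ) m with hT
  have hAs : ∀ t ∈ A, Squarefree t := fun t ht => (mem_Sm' (hA ht)).2.2.1
  have hXs : ∀ t ∈ X, Squarefree t := fun t ht => (mem_Sm' (hX ht)).2.2.1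
  have hPs : ∀ p ∈ PP β κ, p.Prime := fun p hp => (mem_PP' hp).1
  have hD0 : ∀ w ∈ T, w.1 * (w.2.1 * (w.2.2.1 * ∏ j, w.2.2.2 j)) ≠ 0 := by
    intro w hw
    obtain ⟨-, -, h3, h4, -⟩ := t0_size hA hX hw
    have : w.1 * (w.2.1 * (w.2.2.1 * ∏ j, w.2.2.2 j)) =
        (w.1 * (w.2.1 * w.2.2.1)) * ∏ j, w.2.2.2 j := by ring
    rw [this]
    exact mul_ne_zero h3 h4
  have hval : ∀ w ∈ T, psiS N (w.1 * (w.2.1 * (w.2.2.1 * ∏ j, w.2.2.2 j))) =
      psiS N w.1 + psiS N w.2.1 + psiS N w.2.2.1 + sm' (psiS N) w.2.2.2 := by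
    intro w hw
    obtain ⟨w1, w2⟩ := mem_product.1 hw
    obtain ⟨w2, w3⟩ := mem_product.1 w2
    obtain ⟨w3, w4⟩ := mem_product.1 w3
    rw [mem_tup] at w4
    have e1 := (mem_Sm' (hA w1)).1
    have e2 := (mem_Sm' (hX w2)).1
    have e3 := (mem_Sm' (hX w3)).1
    have e4 : ∏ j, w.2.2.2 j ≠ 0 := prod_ne_zero_iff.2 fun j _ => (mem_PP' (w4 j)).1.ne_zero
    rw [psiS_mul (by omega) (mul_ne_zero (by omega) (mul_ne_zero (by omega) e4)),
      psiS_mul (by omega) (mul_ne_zero (by omega) e4), psiS_mul (by omega) e4,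
      psiS_prod _ fun j => (mem_PP' (w4 j)).1.ne_zero]
    unfold sm'
    ring
  have hω : ∀ z ∈ T, #(z.1 * (z.2.1 * (z.2.2.1 * ∏ j, z.2.2.2 j))).primeFactors ≤ κ := by
    intro z hz
    refine hok.om _ (Nat.one_le_iff_ne_zero.2 (hD0 z hz)) ((t0_size hA hX hz).1.trans ?_)
    rw [← hE]
    exact Nat.pow_le_pow_right two_pos (by omega)
  -- the small divisor of the smooth part
  have hex : ∀ w ∈ T, ∃ d, d ∣ w.1 * (w.2.1 * w.2.2.1) ∧ d ≤ 2 ^ (C' * κ) ∧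
      (d = w.1 * (w.2.1 * w.2.2.1) ∨ 2 ^ (C' * κ) < d * 2 ^ κ) := by
    intro w hw
    obtain ⟨-, -, h3, -, h5⟩ := t0_size hA hX hw
    obtain ⟨d, -, h6, h7, h8⟩ := smooth_div (g := 1) (D := 2 ^ (C' * κ)) h3 h5 (one_dvd _)
      Nat.one_le_two_pow
    exact ⟨d, h6, h7, h8⟩
  choose! dd hdd using hex
  -- the cofactor
  have hco : ∀ w ∈ T, ∃ e, w.1 * (w.2.1 * (w.2.2.1 * ∏ j, w.2.2.2 j)) = dd w * e ∧ e ≠ 0 ∧
      dd w ≠ 0 ∧ (e ≤ 2 ^ (i * β + m * κ) ∨ e * 2 ^ (C' * κ) ≤ 2 ^ (E + κ)) := by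
    intro w hw
    obtain ⟨s1, s2, s3, s4, s5⟩ := t0_size hA hX hw
    obtain ⟨⟨f, hf⟩, h2, h3⟩ := hdd w hw
    have hf0 : f ≠ 0 := by
      rintro rfl
      exact s3 (by rw [hf, mul_zero])
    have hd0 : dd w ≠ 0 := by
      intro h
      exact s3 (by rw [hf, h, zero_mul])
    have he : w.1 * (w.2.1 * (w.2.2.1 * ∏ j, w.2.2.2 j)) = dd w * (f * ∏ j, w.2.2.2 j) := by
      rw [← mul_assoc (dd w), ← hf]
      ring
    refine ⟨f * ∏ j, w.2.2.2 j, he, mul_ne_zero hf0 s4, hd0, ?_⟩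
    rcases h3 with h3 | h3
    · left
      have hf1 : f = 1 := by
        have h4 : dd w * f = dd w * 1 := by rw [← hf, mul_one, ← h3]
        exact Nat.eq_of_mul_eq_mul_left (Nat.pos_of_ne_zero hd0) h4
      rw [hf1, one_mul]
      exact s2.trans (Nat.pow_le_pow_right two_pos (by omega))
    · right
      calc f * (∏ j, w.2.2.2 j) * 2 ^ (C' * κ)
          ≤ f * (∏ j, w.2.2.2 j) * (dd w * 2 ^ κ) := Nat.mul_le_mul_left _ h3.le
        _ = w.1 * (w.2.1 * (w.2.2.1 * ∏ j, w.2.2.2 j)) * 2 ^ κ := by rw [he]; ring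
        _ ≤ 2 ^ E * 2 ^ κ := by
            rw [hE]
            exact Nat.mul_le_mul_right _ s1
        _ = 2 ^ (E + κ) := by rw [← pow_add]
  choose! ee hee using hco
  -- the cofactor is determined
  have huniq : ∀ w ∈ T, ∀ w' ∈ T,
      psiS N (w.1 * (w.2.1 * (w.2.2.1 * ∏ j, w.2.2.2 j))) =
      psiS N (w'.1 * (w'.2.1 * (w'.2.2.1 * ∏ j, w'.2.2.2 j))) → dd w = dd w' →
      w.1 * (w.2.1 * (w.2.2.1 * ∏ j, w.2.2.2 j)) =
      w'.1 * (w'.2.1 * (w'.2.2.1 * ∏ j, w'.2.2.2 j)) := by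
    intro w hw w' hw' h1 h2
    obtain ⟨a1, a2, a3, a4⟩ := hee w hw
    obtain ⟨b1, b2, b3, b4⟩ := hee w' hw'
    rw [a1, b1, psiS_mul a3 a2, psiS_mul b3 b2, h2] at h1
    rw [a1, b1, h2]
    congr 1
    have hsm : ∀ e : ℕ, (e ≤ 2 ^ (i * β + m * κ) ∨ e * 2 ^ (C' * κ) ≤ 2 ^ (E + κ)) →
        ∃ M, e ≤ 2 ^ M ∧ (M = i * β + m * κ ∨ M + C' * κ = E + κ ∨ M = 0) := by
      intro e he
      rcases he with he | he
      · exact ⟨_, he, Or.inl rfl⟩
      · rcases Nat.lt_or_ge (E + κ) (C' * κ) with h | h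
        · refine ⟨0, ?_, Or.inr (Or.inr rfl)⟩
          have h5 : e * 2 ^ (C' * κ) < 1 * 2 ^ (C' * κ) := by
            rw [one_mul]
            exact lt_of_le_of_lt he (Nat.pow_lt_pow_right (by norm_num) h)
          have := lt_of_mul_lt_mul_right h5 (Nat.zero_le _)
          rw [pow_zero]
          omega
        · refine ⟨E + κ - C' * κ, ?_, Or.inr (Or.inl (Nat.sub_add_cancel h))⟩
          have h5 : e * 2 ^ (C' * κ) ≤ 2 ^ (E + κ - C' * κ) * 2 ^ (C' * κ) := by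
            rw [← pow_add, Nat.sub_add_cancel h]
            exact he
          exact Nat.le_of_mul_le_mul_right h5 (Nat.pow_pos two_pos)
    obtain ⟨M, hM1, hM2⟩ := hsm _ a4
    obtain ⟨M', hM1', hM2'⟩ := hsm _ b4
    refine eq_of_psiS hok a2 b2 hM1 hM1' ?_ ?_ ?_ (by linarith)
    · rcases hM2 with h | h | h <;> omega
    · rcases hM2' with h | h | h <;> omega
    · rcases hM2 with h | h | h <;> rcases hM2' with h' | h' | h' <;> omega
  unfold en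
  have key : #{z ∈ T ×ˢ T | psiS N z.1.1 + psiS N z.1.2.1 + psiS N z.1.2.2.1 +
      sm' (psiS N) z.1.2.2.2 = psiS N z.2.1 + psiS N z.2.2.1 + psiS N z.2.2.2.1 +
      sm' (psiS N) z.2.2.2.2} ≤
      2 ^ (3 * κ) * κ ^ m * #(T ×ˢ Icc 0 (2 ^ (C' * κ))) := by
    refine card_le_mul_card_image_of_maps_to (f := fun z => (z.1, dd z.2)) ?_ _ ?_
    · intro z hz
      obtain ⟨h1, h2⟩ := mem_product.1 (mem_filter.1 hz).1
      exact mem_product.2 ⟨h1, mem_Icc.2 ⟨Nat.zero_le _, (hdd _ h2).2.1⟩⟩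
    · intro b hb
      by_cases hne : ({z ∈ T ×ˢ T | psiS N z.1.1 + psiS N z.1.2.1 + psiS N z.1.2.2.1 +
          sm' (psiS N) z.1.2.2.2 = psiS N z.2.1 + psiS N z.2.2.1 + psiS N z.2.2.2.1 +
          sm' (psiS N) z.2.2.2.2}.filter (fun z => (z.1, dd z.2) = b)) = ∅
      · rw [hne, card_empty]
        exact Nat.zero_le _
      · obtain ⟨z₀, hz₀⟩ := nonempty_iff_ne_empty.2 hne
        rw [mem_filter, mem_filter] at hz₀
        obtain ⟨⟨h1, h2⟩, h3⟩ := hz₀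
        obtain ⟨h4, h5⟩ := mem_product.1 h1
        refine le_trans ?_ (fib' A X (PP β κ) m hAs hXs (hD0 _ h5) (hω _ h5))
        refine card_le_card_of_injOn Prod.snd ?_ ?_
        · intro z hz
          rw [mem_coe, mem_filter, mem_filter] at hz
          obtain ⟨⟨g1, g2⟩, g3⟩ := hz
          obtain ⟨g4, g5⟩ := mem_product.1 g1
          have hb1 : z.1 = z₀.1 := by
            have := congrArg Prod.fst (g3.trans h3.symm)
            exact this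
          have hb2 : dd z.2 = dd z₀.2 := by
            have := congrArg Prod.snd (g3.trans h3.symm)
            exact this
          have g6 : z.2.1 * (z.2.2.1 * (z.2.2.2.1 * ∏ j, z.2.2.2.2 j)) =
              z₀.2.1 * (z₀.2.2.1 * (z₀.2.2.2.1 * ∏ j, z₀.2.2.2.2 j)) := by
            refine huniq _ g5 _ h5 ?_ hb2
            rw [hval _ g5, hval _ h5, ← g2, ← h2, hb1]
          rw [mem_coe, mem_filter]
          refine ⟨g5, ?_, ?_, ?_, ?_⟩
          · rw [← g6]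
            exact dvd_mul_right _ _
          · rw [← g6]
            exact (dvd_mul_right _ _).trans (dvd_mul_left _ _)
          · rw [← g6]
            exact ((dvd_mul_right _ _).trans (dvd_mul_left _ _)).trans (dvd_mul_left _ _)
          · intro k
            obtain ⟨-, u4⟩ := mem_product.1 g5
            obtain ⟨-, u4⟩ := mem_product.1 u4
            obtain ⟨-, u4⟩ := mem_product.1 u4
            rw [mem_tup] at u4
            refine Nat.mem_primeFactors.2 ⟨hPs _ (u4 k), ?_, hD0 _ h5⟩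
            rw [← g6]
            exact (((dvd_prod_of_mem _ (mem_univ k)).trans (dvd_mul_left _ _)).trans
              (dvd_mul_left _ _)).trans (dvd_mul_left _ _)
        · intro a ha c hc hac
          rw [mem_coe, mem_filter] at ha hc
          have := congrArg Prod.fst (ha.2.trans hc.2.symm)
          exact Prod.ext this hac
  refine key.trans ?_
  have hTc : #T ≤ 2 ^ E := by
    rw [hT, card_product, card_product, card_product, card_tup]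
    have hA' := card_Sm_sub hA
    have hX' := card_Sm_sub hX
    have hP' := card_PP β κ
    calc #A * (#X * (#X * #(PP β κ) ^ m))
        ≤ 2 ^ M₁ * (2 ^ M₂ * (2 ^ M₂ * (2 ^ (β + κ)) ^ m)) := by gcongr
      _ = 2 ^ E := by
          rw [← pow_mul, ← pow_add, ← pow_add, ← pow_add, hE]
          congr 1
          ring
  have hκ2 : κ ≤ 2 ^ κ := Nat.lt_two_pow_self.le
  rw [card_product, Nat.card_Icc]
  calc 2 ^ (3 * κ) * κ ^ m * (#T * (2 ^ (C' * κ) + 1 - 0))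
      ≤ 2 ^ (3 * κ) * (2 ^ κ) ^ m * (2 ^ E * 2 ^ (C' * κ + 1)) := by
        have h1 : 2 ^ (C' * κ) + 1 - 0 ≤ 2 ^ (C' * κ + 1) := by
          have := Nat.one_le_two_pow (n := C' * κ)
          rw [pow_succ]
          omega
        gcongr
    _ = 2 ^ (3 * κ + m * κ + (E + (C' * κ + 1))) := by
        rw [← pow_mul, ← pow_add, ← pow_add, ← pow_add]
        congr 1
        ring
    _ ≤ 2 ^ (i * β + (β + 1) / 2 + (4 * (c₀ + m + 3) + 4 * m + 8) * κ) := by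
        refine Nat.pow_le_pow_right two_pos ?_
        rw [← hC']
        have q5 : (4 * C' + 4 * m + 8) * κ = 4 * (C' * κ) + 4 * (m * κ) + 8 * κ := by ring
        rw [q5]
        omega

/-- T0 without the middle pieces -/
theorem T0_count' (i m c₀ : ℕ) : ∃ C : ℕ, ∀ β κ : ℕ, Ok i β κ → C * κ ≤ β →
    ∀ (M₁ : ℕ) (A : Finset ℕ), A ⊆ Sm κ M₁ → 2 * (M₁ + m * β) ≤ (2 * i + 1) * β + c₀ * κ →
      en (A ×ˢ tup (PP β κ) m) (fun z => psiS (2 ^ ((2 * i + 1) * β)) z.1 +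
        sm' (psiS (2 ^ ((2 * i + 1) * β))) z.2) ≤ 2 ^ (i * β + (β + 1) / 2 + C * κ) := by
  classical
  obtain ⟨C, h⟩ := T0_count i m c₀
  refine ⟨C, ?_⟩
  intro β κ hok hC M₁ A hA hsz
  have h1 : ({1} : Finset ℕ) ⊆ Sm κ 0 := by
    intro x hx
    rw [mem_singleton] at hx
    subst hx
    unfold Sm
    rw [mem_filter, mem_Icc]
    refine ⟨⟨le_rfl, le_rfl⟩, squarefree_one, ?_⟩
    simp
  refine le_trans ?_ (h β κ hok hC M₁ 0 A {1} hA h1 (by simpa using hsz))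
  unfold en
  refine card_le_card_of_injOn (fun z => ((z.1.1, 1, 1, z.1.2), (z.2.1, 1, 1, z.2.2))) ?_ ?_
  · intro z hz
    rw [mem_coe, mem_filter] at hz
    obtain ⟨h2, h3⟩ := hz
    obtain ⟨h4, h5⟩ := mem_product.1 h2
    obtain ⟨a1, a2⟩ := mem_product.1 h4
    obtain ⟨b1, b2⟩ := mem_product.1 h5
    rw [mem_coe, mem_filter]
    refine ⟨mem_product.2 ⟨mem_product.2 ⟨a1, mem_product.2 ⟨mem_singleton_self _,
      mem_product.2 ⟨mem_singleton_self _, a2⟩⟩⟩, mem_product.2 ⟨b1, mem_product.2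
      ⟨mem_singleton_self _, mem_product.2 ⟨mem_singleton_self _, b2⟩⟩⟩⟩, ?_⟩
    simp only [psiS_one, add_zero]
    exact h3
  · intro a _ b _ hab
    simp only [Prod.mk.injEq] at hab
    obtain ⟨⟨e1, -, -, e2⟩, e3, -, -, e4⟩ := hab
    exact Prod.ext (Prod.ext e1 e2) (Prod.ext e3 e4)

end Pool.Agent.Helper19.P3
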